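import Pool.Agent.Helper6.LPA.St
import Pool.Agent.Helper18.TR.Final

/-!
# Project LPA, module FLQ: the fundamental lemma with the relative error `ε / B ^ K`

Copies of `pf_FLmain` (`Pool/Agent/Helper18/TR/FM.lean`), `pf_Level` (`Pool/Agent/Helper96/TR/LV.lean`) and `pf_FL`
(`Pool/Agent/Helper32/TR/FL.lean`) with another choice of the even number `b`.
-/

set_option autoImplicit false

namespace Pool.Agent.Helper16.LPA

open Finset Pool.Agent.Helper18.ED Pool.Agent.Helper18.TR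
open Pool.Agent.Helper6.LPA (StFLQ)

/-- the choice of the even number -/
private lemma choice (L : ℝ) (hL : 0 ≤ L) (ε : ℝ) (hε : 0 < ε) (K : ℕ) :
    ∃ b : ℕ, Even b ∧ 2 * L ≤ b ∧
      Real.exp (2 * L) * (L ^ (b + 1) / ((b + 1).factorial : ℝ)) * 4 ≤ 1 ∧
      Real.exp (2 * L) * (L ^ (b + 1) / ((b + 1).factorial : ℝ)) * 4 *
        ((2 * b + 6 : ℕ) : ℝ) ^ K ≤ ε := by
  have t1 := FloorSemiring.tendsto_pow_div_factorial_atTop L
  have t2 : Filter.Tendsto (fun n : ℕ => (n : ℝ) ^ K * (L ^ n / (n.factorial : ℝ)))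
      Filter.atTop (nhds 0) := by
    have h1 := tendsto_pow_const_div_const_pow_of_one_lt K (one_lt_two (α := ℝ))
    have h2 := FloorSemiring.tendsto_pow_div_factorial_atTop (2 * L)
    have h3 := h1.mul h2
    rw [mul_zero] at h3
    refine h3.congr fun n => ?_
    have hf : ((n.factorial : ℕ) : ℝ) ≠ 0 := by exact_mod_cast (Nat.factorial_pos n).ne'
    have h2n : (2 : ℝ) ^ n ≠ 0 := by positivity
    rw [mul_pow]
    field_simp
  have p1 : 0 < 1 / (4 * Real.exp (2 * L)) := by positivity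
  have p2 : 0 < ε / (4 * Real.exp (2 * L) * 6 ^ K) := by positivity
  obtain ⟨n, hn⟩ := Filter.eventually_atTop.1
    ((t1.eventually_lt_const p1).and (t2.eventually_lt_const p2))
  refine ⟨2 * (n + ⌈L⌉₊), even_two_mul _, ?_, ?_, ?_⟩
  · push_cast
    have := Nat.le_ceil L
    have : (0 : ℝ) ≤ n := Nat.cast_nonneg n
    linarith
  · have h := (hn (2 * (n + ⌈L⌉₊) + 1) (by omega)).1
    rw [lt_div_iff₀ (by positivity)] at h
    nlinarith
  · have h := (hn (2 * (n + ⌈L⌉₊) + 1) (by omega)).2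
    set b := 2 * (n + ⌈L⌉₊) with hb
    rw [lt_div_iff₀ (by positivity)] at h
    have h6 : ((2 * b + 6 : ℕ) : ℝ) ^ K ≤ 6 ^ K * ((b + 1 : ℕ) : ℝ) ^ K := by
      rw [← mul_pow]
      refine pow_le_pow_left₀ (by positivity) ?_ K
      push_cast
      have : (0 : ℝ) ≤ b := Nat.cast_nonneg b
      linarith
    have hx : 0 ≤ Real.exp (2 * L) * (L ^ (b + 1) / ((b + 1).factorial : ℝ)) * 4 := by positivity
    calc Real.exp (2 * L) * (L ^ (b + 1) / ((b + 1).factorial : ℝ)) * 4 * ((2 * b + 6 : ℕ) : ℝ) ^ K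
        ≤ Real.exp (2 * L) * (L ^ (b + 1) / ((b + 1).factorial : ℝ)) * 4 *
          (6 ^ K * ((b + 1 : ℕ) : ℝ) ^ K) := mul_le_mul_of_nonneg_left h6 hx
      _ = ((b + 1 : ℕ) : ℝ) ^ K * (L ^ (b + 1) / ((b + 1).factorial : ℝ)) *
          (4 * Real.exp (2 * L) * 6 ^ K) := by ring
      _ ≤ ε := h.le

/-- the main term for a given even number -/
private theorem mainQ (κ C L η : ℝ) (hκ : 0 < κ) (hC : 1 ≤ C)
    (hCr : ∀ w : ℕ, ∀ Q : Finset ℕ, (∀ p ∈ Q, p.Prime ∧ p ≤ w) →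
      ∀ i, ∑ p ∈ Qi w Q i, 1 / (p : ℝ) ≤ C)
    (hL : L = κ * C) (b : ℕ) (hbe : Even b) (hb2 : 2 * L ≤ b)
    (hbη : Real.exp (2 * L) * (L ^ (b + 1) / ((b + 1).factorial : ℝ)) * 2 ≤ η)
    (w : ℕ) (Q : Finset ℕ) (hQ : ∀ p ∈ Q, p.Prime ∧ p ≤ w) (g : ℕ → ℝ)
    (hg : ∀ p ∈ Q, 0 ≤ g p ∧ g p ≤ κ / p ∧ g p ≤ 1 / 2) :
    ∑ T ∈ fam0 w b Q, (-1 : ℝ) ^ T.card * ∏ p ∈ T, g p ≤ Real.exp η * ∏ p ∈ Q, (1 - g p) ∧
    (1 - η * Real.exp η) * ∏ p ∈ Q, (1 - g p) ≤
      ∑ T ∈ fam0 w b Q ∪ fam1 w b Q, (-1 : ℝ) ^ T.card * ∏ p ∈ T, g p := by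
  have hL0 : 0 ≤ L := by
    rw [hL]
    exact mul_nonneg hκ.le (by linarith)
  have h0 := pf_Fact0
  have h1 := pf_Fact1
  have hS := pf_Sym
  have hE := pf_Esymm
  have hg1 : ∀ p ∈ Q, 0 ≤ g p ∧ g p ≤ 1 := fun p hp =>
    ⟨(hg p hp).1, (hg p hp).2.2.trans (by norm_num)⟩
  have hsubQ : ∀ i, ∀ p ∈ Qi w Q i, p ∈ Q := fun i p hp => (Finset.mem_filter.mp hp).1
  set G : ℕ → ℝ := fun i => ∏ p ∈ Qi w Q i, (1 - g p) with hG
  set Y : ℕ → ℝ := fun i => Yy (b + 2 * i) (Qi w Q i) g with hY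
  set E : ℕ → ℝ := fun i => ee (b + 2 * i + 1) (Qi w Q i) g with hEd
  set δ : ℕ → ℝ := fun i => Real.exp (2 * L) *
    (L ^ (b + 2 * i + 1) / ((b + 2 * i + 1).factorial : ℝ)) with hδ
  have hGQ : ∏ p ∈ Q, (1 - g p) = ∏ i ∈ range (w + 1), G i := by
    rw [← Finset.prod_fiberwise_of_maps_to (t := range (w + 1)) (g := idx w)
      (fun p _ => fm_idx w p)]
    rfl
  have hai : ∀ i, ∑ p ∈ Qi w Q i, g p ≤ L := by
    intro i
    calc ∑ p ∈ Qi w Q i, g p ≤ ∑ p ∈ Qi w Q i, κ * (1 / (p : ℝ)) := by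
          apply Finset.sum_le_sum
          intro p hp
          rw [mul_one_div]
          exact (hg p (hsubQ i p hp)).2.1
      _ = κ * ∑ p ∈ Qi w Q i, 1 / (p : ℝ) := by rw [Finset.mul_sum]
      _ ≤ κ * C := mul_le_mul_of_nonneg_left (hCr w Q hQ i) hκ.le
      _ = L := hL.symm
  have hGlow : ∀ i, Real.exp (-(2 * L)) ≤ G i := by
    intro i
    calc Real.exp (-(2 * L)) ≤ Real.exp (∑ p ∈ Qi w Q i, -(2 * g p)) := by
          apply Real.exp_le_exp.mpr
          rw [Finset.sum_neg_distrib, ← Finset.mul_sum]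
          have := hai i
          linarith
      _ = ∏ p ∈ Qi w Q i, Real.exp (-(2 * g p)) := Real.exp_sum _ _
      _ ≤ ∏ p ∈ Qi w Q i, (1 - g p) := by
          apply Finset.prod_le_prod (fun _ _ => (Real.exp_pos _).le)
          intro p hp
          have h := hg p (hsubQ i p hp)
          exact fm_exp _ h.1 h.2.2
  have hGpos : ∀ i, 0 < G i := fun i => lt_of_lt_of_le (Real.exp_pos _) (hGlow i)
  have hδ0 : ∀ i, 0 ≤ δ i := fun i => by positivity
  have hEδ : ∀ i, E i ≤ δ i * G i := by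
    intro i
    have h2 := (hE (b + 2 * i + 1) (Qi w Q i) g (fun p hp => (hg p (hsubQ i p hp)).1)).2
    have h3 : (∑ p ∈ Qi w Q i, g p) ^ (b + 2 * i + 1) ≤ L ^ (b + 2 * i + 1) :=
      pow_le_pow_left₀ (Finset.sum_nonneg (fun p hp => (hg p (hsubQ i p hp)).1)) (hai i) _
    have h4 : E i ≤ L ^ (b + 2 * i + 1) / ((b + 2 * i + 1).factorial : ℝ) :=
      h2.trans (by gcongr)
    have h5 : 1 ≤ Real.exp (2 * L) * G i := by
      calc (1 : ℝ) = Real.exp (2 * L) * Real.exp (-(2 * L)) := by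
            rw [← Real.exp_add]; simp
        _ ≤ Real.exp (2 * L) * G i := mul_le_mul_of_nonneg_left (hGlow i) (Real.exp_pos _).le
    calc E i ≤ L ^ (b + 2 * i + 1) / ((b + 2 * i + 1).factorial : ℝ) := h4
      _ ≤ (L ^ (b + 2 * i + 1) / ((b + 2 * i + 1).factorial : ℝ)) * (Real.exp (2 * L) * G i) :=
          le_mul_of_one_le_right (by positivity) h5
      _ = δ i * G i := by simp only [hδ]; ring
  have hsum : ∑ i ∈ range (w + 1), δ i ≤ η := by
    calc ∑ i ∈ range (w + 1), δ i ≤ ∑ i ∈ range (w + 1), Real.exp (2 * L) *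
          (L ^ (b + 1) / ((b + 1).factorial : ℝ) * (1 / 2) ^ i) := by
          apply Finset.sum_le_sum
          intro i _
          exact mul_le_mul_of_nonneg_left (fm_decay L hL0 b hb2 i) (Real.exp_pos _).le
      _ = Real.exp (2 * L) * (L ^ (b + 1) / ((b + 1).factorial : ℝ)) *
          ∑ i ∈ range (w + 1), (1 / 2 : ℝ) ^ i := by
          rw [Finset.mul_sum]
          exact Finset.sum_congr rfl (fun _ _ => by ring)
      _ ≤ Real.exp (2 * L) * (L ^ (b + 1) / ((b + 1).factorial : ℝ)) * 2 :=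
          mul_le_mul_of_nonneg_left (fm_geo _) (by positivity)
      _ ≤ η := hbη
  have hbi : ∀ i, Even (b + 2 * i) := fun i => hbe.add (even_two_mul i)
  have hY0 : ∀ i, G i ≤ Y i := fun i =>
    (hS (b + 2 * i) (Qi w Q i) g (hbi i) (fun p hp => hg1 p (hsubQ i p hp))).1
  have hY1 : ∀ i, Y i ≤ G i + E i := fun i =>
    (hS (b + 2 * i) (Qi w Q i) g (hbi i) (fun p hp => hg1 p (hsubQ i p hp))).2
  have key := fm_prod (range (w + 1)) G Y E δ η (fun i _ => hGpos i) (fun i _ => hδ0 i)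
    (fun i _ => hEδ i) (fun i _ => hY0 i) (fun i _ => hY1 i) hsum
  have f0 := h0 w b Q g
  have f1 := h1 w b Q g hbe
  constructor
  · rw [f0, hGQ]
    exact key.1
  · rw [Finset.sum_union (fm_disj w b Q), f0, f1, hGQ]
    refine key.2.trans (le_of_eq ?_)
    rw [sub_eq_add_neg]

/-- the level -/
private theorem levelQ (b w : ℕ) (hw : 1 ≤ w) (Q : Finset ℕ) (hQ : ∀ p ∈ Q, p.Prime ∧ p ≤ w)
    (T : Finset ℕ) (hT : T ∈ fam0 w b Q ∪ fam1 w b Q) : ∏ p ∈ T, p ≤ w ^ (2 * b + 6) := by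
  obtain ⟨hTQ, hc⟩ := lv_card hT
  have hw0 : (0 : ℝ) < w := by exact_mod_cast hw
  have hlw : 0 ≤ Real.log w := Real.log_nonneg (by exact_mod_cast hw)
  have hTp : ∀ p ∈ T, p.Prime ∧ p ≤ w := fun p hp => hQ p (hTQ hp)
  have h1 : Real.log (∏ p ∈ T, (p : ℝ)) ≤ (2 * b + 6) * Real.log w := by
    rw [Real.log_prod fun p hp => by have := (hTp p hp).1.pos; positivity]
    rw [← sum_fiberwise_of_maps_to (s := T) (t := range (w + 1)) (g := idx w)
      (fun p _ => mem_range.2 (Nat.lt_succ_of_le (lv_idx_le w p)))]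
    calc ∑ i ∈ range (w + 1), ∑ p ∈ T.filter (fun p => idx w p = i), Real.log (p : ℝ)
        ≤ ∑ i ∈ range (w + 1), ((b : ℝ) + 2 * i + 1) / 2 ^ i * Real.log w := by
          refine sum_le_sum fun i hi => ?_
          have h2 : ∀ p ∈ T.filter (fun p => idx w p = i), Real.log (p : ℝ) ≤
              Real.log w / 2 ^ i := by
            intro p hp
            rw [mem_filter] at hp
            have h3 := lv_pow_le (hTp p hp.1).1 (hTp p hp.1).2
            rw [hp.2] at h3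
            have hp0 : (0 : ℝ) < p := by exact_mod_cast (hTp p hp.1).1.pos
            have h4 : Real.log ((p : ℝ) ^ (2 ^ i)) ≤ Real.log w :=
              Real.log_le_log (by positivity) (by exact_mod_cast h3)
            rw [Real.log_pow] at h4
            rw [le_div_iff₀ (by positivity)]
            push_cast at h4
            linarith
          refine (sum_le_card_nsmul _ _ _ h2).trans ?_
          rw [nsmul_eq_mul]
          have h5 : ((T.filter (fun p => idx w p = i)).card : ℝ) ≤ (b : ℝ) + 2 * i + 1 := by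
            have := hc i hi
            rw [Qi] at this
            exact_mod_cast this
          rw [div_mul_eq_mul_div, mul_div_assoc']
          exact div_le_div_of_nonneg_right (mul_le_mul_of_nonneg_right h5 hlw) (by positivity)
      _ = (2 * b + 6 - (2 * b + 6 + 4 * ((w + 1 : ℕ) : ℝ)) / 2 ^ (w + 1)) * Real.log w := by
          rw [← sum_mul, lv_sum]
      _ ≤ (2 * b + 6) * Real.log w := by
          refine mul_le_mul_of_nonneg_right ?_ hlw
          have : (0 : ℝ) ≤ (2 * b + 6 + 4 * ((w + 1 : ℕ) : ℝ)) / 2 ^ (w + 1) := by positivity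
          linarith
  have hpos : (0 : ℝ) < ∏ p ∈ T, (p : ℝ) :=
    prod_pos fun p hp => by have := (hTp p hp).1.pos; positivity
  have h6 : Real.log (∏ p ∈ T, (p : ℝ)) ≤ Real.log ((w : ℝ) ^ (2 * b + 6)) := by
    rw [Real.log_pow]; push_cast; exact h1
  have h7 := (Real.log_le_log_iff hpos (by positivity)).1 h6
  have h8 : ((∏ p ∈ T, p : ℕ) : ℝ) ≤ ((w ^ (2 * b + 6) : ℕ) : ℝ) := by push_cast; exact h7
  exact Nat.cast_le.1 h8

/-- FLQ. -/
theorem hFLQ : StFLQ := by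
  intro κ ε K hκ hε
  obtain ⟨C, hC, hCr⟩ := range_
  have hL0 : 0 ≤ κ * C := mul_nonneg hκ.le (by linarith)
  obtain ⟨b, hbe, hb2, hb1, hbK⟩ := choice (κ * C) hL0 ε hε K
  refine ⟨2 * b + 6, by omega, ?_⟩
  intro w hw Q hQ g hg α A E _ N R hN hR hcount
  have hpK : (0 : ℝ) < ((2 * b + 6 : ℕ) : ℝ) ^ K := by positivity
  obtain ⟨e, he⟩ : ∃ e : ℝ, e = min 1 (ε / ((2 * b + 6 : ℕ) : ℝ) ^ K) := ⟨_, rfl⟩
  have he0 : 0 < e := by
    rw [he]
    exact lt_min one_pos (by positivity)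
  have he1 : e ≤ 1 := by
    rw [he]
    exact min_le_left _ _
  have he2 : e ≤ ε / ((2 * b + 6 : ℕ) : ℝ) ^ K := by
    rw [he]
    exact min_le_right _ _
  have hbη : Real.exp (2 * (κ * C)) * ((κ * C) ^ (b + 1) / ((b + 1).factorial : ℝ)) * 2 ≤ e / 2 := by
    rw [le_div_iff₀ two_pos, he]
    refine le_min (by linarith) ?_
    rw [le_div_iff₀ hpK]
    linarith
  have hexp1 : Real.exp (e / 2) ≤ 1 + e := by
    have h1 := Real.add_one_le_exp (-(e / 2))
    have h2 : Real.exp (e / 2) * Real.exp (-(e / 2)) = 1 := by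
      rw [← Real.exp_add, add_neg_cancel, Real.exp_zero]
    have h3 := Real.exp_pos (e / 2)
    have h4 : Real.exp (e / 2) * (1 - e / 2) ≤ 1 := by
      rw [← h2]
      exact mul_le_mul_of_nonneg_left (by linarith) h3.le
    have h5 : 1 ≤ (1 + e) * (1 - e / 2) := by nlinarith
    have h6 : (0 : ℝ) < 1 - e / 2 := by linarith
    exact le_of_mul_le_mul_right (h4.trans h5) h6
  have hexp2 : e / 2 * Real.exp (e / 2) ≤ e := by nlinarith
  obtain ⟨m1, m2⟩ := mainQ κ C (κ * C) (e / 2) hκ hC hCr rfl b hbe hb2 hbη w Q hQ g hg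
  have hGn : 0 ≤ ∏ p ∈ Q, (1 - g p) :=
    Finset.prod_nonneg fun p hp => by
      have := (hg p hp).2.2
      linarith
  have hm1 : ∑ T ∈ fam0 w b Q, (-1 : ℝ) ^ T.card * ∏ p ∈ T, g p ≤
      (1 + e) * ∏ p ∈ Q, (1 - g p) := m1.trans (mul_le_mul_of_nonneg_right hexp1 hGn)
  have hm2 : (1 - e) * ∏ p ∈ Q, (1 - g p) ≤
      ∑ T ∈ fam0 w b Q ∪ fam1 w b Q, (-1 : ℝ) ^ T.card * ∏ p ∈ T, g p :=
    (mul_le_mul_of_nonneg_right (by linarith) hGn).trans m2
  have hwk : e * (N * ∏ p ∈ Q, (1 - g p)) ≤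
      ε / ((2 * b + 6 : ℕ) : ℝ) ^ K * (N * ∏ p ∈ Q, (1 - g p)) :=
    mul_le_mul_of_nonneg_right he2 (mul_nonneg hN hGn)
  have hfin : |((A.filter (fun a => ∀ p ∈ Q, ¬ E p a)).card : ℝ) - N * ∏ p ∈ Q, (1 - g p)| ≤
      e * (N * ∏ p ∈ Q, (1 - g p)) + (w : ℝ) ^ (2 * b + 6) * R := by
    have hlev' := fun T hT => levelQ b w (by omega) Q hQ T hT
    have hcard := fl_card hQ hlev'
    have hc : ∀ T ∈ fam0 w b Q ∪ fam1 w b Q,
        |((A.filter (fun a => ∀ p ∈ T, E p a)).card : ℝ) - N * ∏ p ∈ T, g p| ≤ R :=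
      fun T hT => hcount T (fl_subset hT) (hlev' T hT)
    have hbonf : ∀ a : α, _ := fun a => bonf w b Q (fun p => if E p a then (1 : ℝ) else 0) hbe
      (fun p _ => by split_ifs <;> norm_num)
    have hup : ((A.filter (fun a => ∀ p ∈ Q, ¬ E p a)).card : ℝ) ≤
        ∑ T ∈ fam0 w b Q, (-1 : ℝ) ^ T.card * ((A.filter (fun a => ∀ p ∈ T, E p a)).card : ℝ) := by
      rw [fl_count', ← fl_sum]
      exact Finset.sum_le_sum fun a _ => (hbonf a).2
    have hlo : ∑ T ∈ fam0 w b Q ∪ fam1 w b Q,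
        (-1 : ℝ) ^ T.card * ((A.filter (fun a => ∀ p ∈ T, E p a)).card : ℝ) ≤
          ((A.filter (fun a => ∀ p ∈ Q, ¬ E p a)).card : ℝ) := by
      rw [fl_count', ← fl_sum]
      exact Finset.sum_le_sum fun a _ => (hbonf a).1
    have hd1 := fl_diff A E hR hcard hc (Finset.subset_union_left :
      fam0 w b Q ⊆ fam0 w b Q ∪ fam1 w b Q)
    have hd2 := fl_diff A E hR hcard hc (Finset.Subset.refl (fam0 w b Q ∪ fam1 w b Q))
    have hm1' := mul_le_mul_of_nonneg_left hm1 hN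
    have hm2' := mul_le_mul_of_nonneg_left hm2 hN
    rw [abs_le] at hd1 hd2 ⊢
    obtain ⟨hd1a, hd1b⟩ := hd1
    obtain ⟨hd2a, hd2b⟩ := hd2
    constructor
    · nlinarith
    · nlinarith
  linarith

end Pool.Agent.Helper16.LPA
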